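import Pool.Agent.Y162.HW.Spread

/-!
# Closed points above points of the base where a polynomial in a transcendental element is not zero
-/

set_option autoImplicit false

namespace Pool.Agent.Q267.FC

open Pool.Agent.Y162.HW

/-- Primes of a finitely generated domain over all large `p`, outside a hypersurface. -/
lemma exists_prime_not_mem {R : Type*} [CommRing R] [IsDomain R] [CharZero R]
    [Algebra.FiniteType ℤ R] (a : R) (ha : a ≠ 0) : ∃ N : ℕ, ∀ p : ℕ, N ≤ p → p.Prime →
      ∃ P : Ideal R, P.IsPrime ∧ (p : R) ∈ P ∧ a ∉ P := by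
  have hNoeth : IsNoetherianRing R := Algebra.FiniteType.isNoetherianRing ℤ R
  obtain ⟨N1, hN1⟩ := exists_prime_over (R := R)
  obtain ⟨N2, hN2⟩ := large_primes a ha
  refine ⟨max N1 N2, fun p hp hpp => ?_⟩
  obtain ⟨Q, hQ, hpQ⟩ := hN1 p ((le_max_left _ _).trans hp) hpp
  obtain ⟨P, hP, hPQ⟩ := Ideal.exists_minimalPrimes_le
    (show Ideal.span {(p : R)} ≤ Q by rw [Ideal.span_le]; simpa using hpQ)
  exact ⟨P, hP.1.1, hP.1.2 (Ideal.subset_span rfl),
    hN2 p ((le_max_right _ _).trans hp) hpp P hP⟩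

theorem lift_point {𝕜 : Type*} [Field 𝕜] [CharZero 𝕜] (k₀ : IntermediateField ℚ 𝕜) (t : 𝕜)
    (ht : Transcendental k₀ t) (A A0 : Subalgebra ℤ 𝕜) (hA : A.FG) (hA0 : A0.FG) (hle : A0 ≤ A)
    (hk : ∀ x ∈ A0, x ∈ k₀) (htA : t ∈ A) (c₀ : A) (hc₀ : c₀ ≠ 0) (S : Set ℕ)
    (D : ℕ → Polynomial A0) (N₁ : ℕ)
    (hD : ∀ p ∈ S, N₁ ≤ p → p.Prime → ∃ P : Ideal A0, P.IsPrime ∧ (p : A0) ∈ P ∧
      (D p).map (Ideal.Quotient.mk P) ≠ 0) :
    ∃ N : ℕ, ∀ p ∈ S, N ≤ p → p.Prime → ∃ M : Ideal A, M.IsMaximal ∧ (p : A) ∈ M ∧ c₀ ∉ M ∧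
      Polynomial.eval₂ (Subalgebra.inclusion hle).toRingHom ⟨t, htA⟩ (D p) ∉ M := by
  classical
  have hfA0 : Algebra.FiniteType ℤ A0 := (Subalgebra.fg_iff_finiteType _).mp hA0
  have hfA : Algebra.FiniteType ℤ A := (Subalgebra.fg_iff_finiteType _).mp hA
  let i0 : A0 →+* A := (Subalgebra.inclusion hle).toRingHom
  let f : Polynomial A0 →+* A := Polynomial.eval₂RingHom i0 ⟨t, htA⟩
  have hfk : ∀ P : Polynomial A0, ((f P : A) : 𝕜) = Polynomial.aeval t P := by
    intro P
    change (algebraMap A 𝕜) (Polynomial.eval₂ i0 ⟨t, htA⟩ P) = _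
    rw [Polynomial.hom_eval₂]
    rfl
  have htr : Function.Injective (Polynomial.aeval t : Polynomial A0 →ₐ[A0] 𝕜) := by
    let j : A0 →+* k₀ := (algebraMap A0 𝕜).codRestrict _ (fun x => hk x.1 x.2)
    have hj : Function.Injective j := by
      intro x y h
      have := congrArg Subtype.val h
      exact Subtype.ext this
    have h2 : ∀ P : Polynomial A0,
        Polynomial.aeval t P = Polynomial.aeval t (P.map j) := by
      intro P
      rw [Polynomial.aeval_def, Polynomial.aeval_def, Polynomial.eval₂_map]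
      rfl
    intro P Q hPQ
    rw [h2, h2] at hPQ
    exact Polynomial.map_injective j hj (transcendental_iff_injective.mp ht hPQ)
  have hf : Function.Injective f := by
    intro P Q h
    have h1 := congrArg Subtype.val h
    rw [hfk, hfk] at h1
    exact htr h1
  have hft : f.FiniteType := by
    have h1 : (f.comp (algebraMap ℤ (Polynomial A0))).FiniteType := by
      have : (algebraMap ℤ A).FiniteType := RingHom.finiteType_algebraMap.mpr inferInstance
      rwa [show algebraMap ℤ A = f.comp (algebraMap ℤ (Polynomial A0)) from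
        RingHom.ext_int _ _] at this
    exact RingHom.FiniteType.of_comp_finiteType h1
  have hJ : IsJacobsonRing A := by
    have := jac_int
    exact isJacobsonRing_of_finiteType (A := ℤ)
  have hNoeth0 : IsNoetherianRing A0 := Algebra.FiniteType.isNoetherianRing ℤ A0
  obtain ⟨c1, hc1, hlift⟩ := chev f hf hft c₀ hc₀
  obtain ⟨N2, hN2⟩ := large_primes c1 hc1
  refine ⟨max N₁ N2, fun p hpS hp hpp => ?_⟩
  obtain ⟨P, hP, hpP, hDP⟩ := hD p hpS ((le_max_left _ _).trans hp) hpp
  -- the prime of the polynomial ring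
  let P' : Ideal (Polynomial A0) := RingHom.ker (Polynomial.mapRingHom (Ideal.Quotient.mk P))
  have hdom : IsDomain (A0 ⧸ P) := Ideal.Quotient.isDomain P
  have hP' : P'.IsPrime := RingHom.ker_isPrime _
  have hpP' : (p : Polynomial A0) ∈ P' := by
    change Polynomial.mapRingHom (Ideal.Quotient.mk P) (p : Polynomial A0) = 0
    rw [map_natCast]
    have h1 : (Ideal.Quotient.mk P) (p : A0) = 0 := Ideal.Quotient.eq_zero_iff_mem.2 hpP
    rw [map_natCast] at h1
    rw [← map_natCast Polynomial.C, h1, map_zero]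
  have hdP' : D p ∉ P' := fun h => hDP h
  obtain ⟨P0, hP0, hPP'⟩ := Ideal.exists_minimalPrimes_le
    (show Ideal.span {(p : Polynomial A0)} ≤ P' by
      rw [Ideal.span_le, Set.singleton_subset_iff]; exact hpP')
  have hPp : P0.IsPrime := hP0.1.1
  have hc0P := hN2 p ((le_max_right _ _).trans hp) hpp P0 hP0
  obtain ⟨Q, hQ, hQP, hcQ⟩ := hlift P0 hPp hc0P
  have hpQ : (p : A) ∈ Q := by
    have h1 : (p : Polynomial A0) ∈ Q.comap f := by
      rw [hQP]; exact hP0.1.2 (Ideal.subset_span rfl)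
    rw [Ideal.mem_comap, map_natCast] at h1
    exact h1
  have hdQ : f (D p) ∉ Q := by
    intro h
    have h1 : D p ∈ Q.comap f := h
    rw [hQP] at h1
    exact hdP' (hPP' h1)
  have hprod : c₀ * f (D p) ∉ Q := by
    intro h
    rcases hQ.mem_or_mem h with h1 | h1
    · exact hcQ h1
    · exact hdQ h1
  have hjac : Q.jacobson = Q := isJacobsonRing_iff_prime_eq.mp hJ Q hQ
  rw [← hjac, Ideal.jacobson, Submodule.mem_sInf] at hprod
  push Not at hprod
  obtain ⟨M, ⟨hM0M, hM⟩, hMa⟩ := hprod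
  exact ⟨M, hM, hM0M hpQ, fun h1 => hMa (Ideal.mul_mem_right _ M h1),
    fun h1 => hMa (Ideal.mul_mem_left M _ h1)⟩

end Pool.Agent.Q267.FC
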