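import Pool.Agent.Q267.FC.Top
import Pool.Agent.Q267.FC.Lift

/-!
# Hypersurfaces with one free coefficient
-/

set_option autoImplicit false

open Finset MvPolynomial

namespace Pool.Agent.Q267.FC

/-- The exponents `w` with `w x ≥ 1` and `∑ W x * w x = m`. -/
abbrev Exps {V : Type*} [Fintype V] (W : V → ℕ) (m : ℕ) :=
  {u : V → Fin (m + 1) // (∀ v, 0 < (u v : ℕ)) ∧ ∑ v, W v * (u v : ℕ) = m}

/-- The Hasse-Witt matrix in characteristic `p` of the hypersurface `f = 0` of weighted degree `m`. -/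
noncomputable def hasseWitt {R V : Type*} [CommRing R] [Fintype V] (W : V → ℕ) (p m : ℕ)
    (f : MvPolynomial V R) : Matrix (Exps W m) (Exps W m) R :=
  Matrix.of fun u w => MvPolynomial.coeff (Finsupp.equivFunOnFinite.symm fun v => p * (u.1 v : ℕ))
    (MvPolynomial.monomial (Finsupp.equivFunOnFinite.symm fun v => (w.1 v : ℕ)) 1 * f ^ (p - 1))

variable {V : Type*} [Fintype V] [DecidableEq V]

/-- The exponents as finitely supported functions. -/
noncomputable def wexp (W : V → ℕ) (m : ℕ) (w : Exps W m) : V →₀ ℕ :=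
  Finsupp.equivFunOnFinite.symm fun i => (w.1 i : ℕ)

omit [DecidableEq V] in
lemma wexp_inj (W : V → ℕ) (m : ℕ) : Function.Injective (wexp W m) := by
  intro w w' h
  apply Subtype.ext
  funext i
  exact Fin.ext (DFunLike.congr_fun h i)

omit [DecidableEq V] in
lemma hasseWitt_eq {R : Type*} [CommRing R] (W : V → ℕ) (p m : ℕ) (F : MvPolynomial V R) :
    hasseWitt W p m F = Pool.Agent.Q267.OD.hw p (wexp W m) F := by
  ext w w'
  unfold hasseWitt Pool.Agent.Q267.OD.hw
  rw [Matrix.of_apply, Matrix.of_apply]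
  congr 1
  ext i
  rw [Finsupp.smul_apply, smul_eq_mul]
  rfl

omit [DecidableEq V] in
lemma weight_eq (W : V → ℕ) (v : V →₀ ℕ) : Finsupp.weight W v = ∑ x, W x * v x := by
  rw [Finsupp.weight_apply, Finsupp.sum_fintype _ _ (by simp)]
  exact sum_congr rfl fun x _ => by rw [smul_eq_mul, mul_comm]

lemma wexp_lt (W d : V → ℕ) (m : ℕ) (hm : 0 < m) (hV : 2 ≤ Fintype.card V)
    (hW : ∀ x, W x * d x = m) (w : Exps W m) (x : V) : wexp W m w x < d x := by
  have hWpos : ∀ x, 0 < W x := fun x => Nat.pos_of_ne_zero fun h => by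
    have := hW x
    rw [h, zero_mul] at this
    omega
  obtain ⟨y, hy⟩ : ∃ y, y ≠ x := by
    by_contra h
    push Not at h
    have h1 : Fintype.card V ≤ 1 := Fintype.card_le_one_iff.mpr fun a b => by rw [h a, h b]
    omega
  have h1 := w.2.2
  have h2 : W x * (w.1 x : ℕ) + W y * (w.1 y : ℕ) ≤ ∑ v, W v * (w.1 v : ℕ) := by
    rw [← Finset.add_sum_erase univ _ (mem_univ x)]
    refine Nat.add_le_add_left ?_ _
    exact Finset.single_le_sum (f := fun v => W v * (w.1 v : ℕ)) (fun _ _ => Nat.zero_le _)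
      (Finset.mem_erase.mpr ⟨hy, mem_univ y⟩)
  have h3 : 0 < W y * (w.1 y : ℕ) := Nat.mul_pos (hWpos y) (w.2.1 y)
  have h4 : W x * (w.1 x : ℕ) < W x * d x := by rw [hW]; omega
  exact lt_of_mul_lt_mul_left h4 (Nat.zero_le _)

section maps

variable {R S : Type*} [CommRing R] [CommRing S]

omit [DecidableEq V] in
lemma ff_map (φ : R →+* S) (d : V → ℕ) (b : V → R) (u : V →₀ ℕ) :
    map (Polynomial.mapRingHom φ) (ff d b u) = ff d (fun x => φ (b x)) u := by
  unfold ff
  rw [map_add, map_sum, map_monomial, Polynomial.coe_mapRingHom, Polynomial.map_X]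
  congr 1
  refine sum_congr rfl fun x _ => ?_
  rw [map_monomial, Polynomial.coe_mapRingHom, Polynomial.map_C]

/-- The polynomial `∑ b_x z_x ^ (d_x) + t z ^ u + G`. -/
noncomputable def poly (d : V → ℕ) (b : V → R) (u : V →₀ ℕ) (t : R) (G : MvPolynomial V R) :
    MvPolynomial V R :=
  ∑ x, monomial (Finsupp.single x (d x)) (b x) + monomial u t + G

omit [DecidableEq V] in
lemma poly_map (φ : R →+* S) (d : V → ℕ) (b : V → R) (u : V →₀ ℕ) (t : R)
    (G : MvPolynomial V R) : map φ (poly d b u t G) =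
      poly d (fun x => φ (b x)) u (φ t) (map φ G) := by
  unfold poly
  rw [map_add, map_add, map_sum, map_monomial]
  congr 2
  exact sum_congr rfl fun x _ => map_monomial _ _ _

omit [DecidableEq V] in
lemma ff_eval (φ : R →+* S) (t : S) (d : V → ℕ) (b : V → R) (u : V →₀ ℕ)
    (G : MvPolynomial V R) :
    map (Polynomial.eval₂RingHom φ t) (map Polynomial.C G + ff d b u) =
      poly d (fun x => φ (b x)) u t (map φ G) := by
  unfold ff poly
  rw [map_add, map_add, map_sum, map_monomial, MvPolynomial.map_map]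
  have h1 : (Polynomial.eval₂RingHom φ t).comp Polynomial.C = φ := by
    ext a
    simp
  have h2 : ∀ x, map (Polynomial.eval₂RingHom φ t)
      (monomial (Finsupp.single x (d x)) (Polynomial.C (b x))) =
      monomial (Finsupp.single x (d x)) (φ (b x)) := by
    intro x
    rw [map_monomial]
    simp
  rw [h1]
  simp only [h2]
  rw [Polynomial.coe_eval₂RingHom, Polynomial.eval₂_X]
  ring

end maps

/-- The common multiple of the nonzero entries of `u`. -/
def lcmU (u : V → ℕ) : ℕ := univ.lcm fun x => max 1 (u x)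

omit [DecidableEq V] in
lemma lcmU_pos (u : V → ℕ) : 0 < lcmU u := by
  refine Nat.pos_of_ne_zero fun h => ?_
  unfold lcmU at h
  rw [Finset.lcm_eq_zero_iff] at h
  obtain ⟨x, _, hx⟩ := h
  have : 1 ≤ max 1 (u x) := le_max_left _ _
  omega

omit [DecidableEq V] in
lemma dvd_lcmU (u : V → ℕ) (x : V) (hx : u x ≠ 0) : u x ∣ lcmU u := by
  have h1 : max 1 (u x) = u x := max_eq_right (by omega)
  have h2 : max 1 (u x) ∣ lcmU u := Finset.dvd_lcm (f := fun x => max 1 (u x)) (mem_univ x)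
  rwa [h1] at h2

theorem main {𝕜 : Type*} [Field 𝕜] [CharZero 𝕜] (k₀ : IntermediateField ℚ 𝕜) (t : 𝕜)
    (ht : Transcendental k₀ t) (hV : 2 ≤ Fintype.card V) (m : ℕ) (hm : 0 < m) (d W : V → ℕ)
    (hW : ∀ x, W x * d x = m) (u : V →₀ ℕ) (huw : ∑ x, W x * u x = m)
    (A : Subalgebra ℤ 𝕜) (hA : A.FG) (b : V → A) (hb : ∀ x, b x ≠ 0)
    (hbk : ∀ x, (b x : 𝕜) ∈ k₀) (G : MvPolynomial V A) (hGk : ∀ v, ((coeff v G : A) : 𝕜) ∈ k₀)
    (hG : ∀ v ∈ G.support, ∀ x, u x ≠ 0 → v x ≠ 0) (T : A) (hT : (T : 𝕜) = t)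
    (c₀ : A) (hc₀ : c₀ ≠ 0) :
    ∃ N : ℕ, ∀ p : ℕ, N ≤ p → p.Prime → p ≡ 1 [MOD lcmU u * m] →
      ∃ M : Ideal A, M.IsMaximal ∧ (p : A) ∈ M ∧ c₀ ∉ M ∧
        (hasseWitt W p m (map (Ideal.Quotient.mk M) (poly d b u T G))).det ≠ 0 := by
  classical
  -- the ring of the other coefficients
  set s : Set 𝕜 := Set.range (fun x => (b x : 𝕜)) ∪
    ((fun v => ((coeff v G : A) : 𝕜)) '' (G.support : Set (V →₀ ℕ))) with hs
  have hsfin : s.Finite := (Set.finite_range _).union ((Finset.finite_toSet _).image _)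
  let A0 : Subalgebra ℤ 𝕜 := Algebra.adjoin ℤ s
  have hA0 : A0.FG := Subalgebra.fg_def.2 ⟨s, hsfin, rfl⟩
  have hle : A0 ≤ A := by
    refine Algebra.adjoin_le ?_
    rintro x (⟨y, rfl⟩ | ⟨v, _, rfl⟩)
    · exact (b y).2
    · exact (coeff v G).2
  have hk : A0 ≤ k₀.toSubalgebra.restrictScalars ℤ := by
    refine Algebra.adjoin_le ?_
    rintro x (⟨y, rfl⟩ | ⟨v, _, rfl⟩)
    · exact hbk y
    · exact hGk v
  let b0 : V → A0 := fun x => ⟨b x, Algebra.subset_adjoin (Or.inl ⟨x, rfl⟩)⟩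
  let i0 : A0 →+* A := (Subalgebra.inclusion hle).toRingHom
  have hib : ∀ x, i0 (b0 x) = b x := fun x => Subtype.ext rfl
  have hb0 : ∀ x, b0 x ≠ 0 := by
    intro x h
    apply hb x
    rw [← hib, h, map_zero]
  obtain ⟨G0, hG0⟩ : ∃ G0 : MvPolynomial V A0, map i0 G0 = G := by
    refine ⟨∑ v ∈ G.support.attach, monomial v.1
      (⟨((coeff v.1 G : A) : 𝕜), Algebra.subset_adjoin (Or.inr ⟨v.1, v.2, rfl⟩)⟩ : A0), ?_⟩
    rw [map_sum]
    conv_rhs => rw [G.as_sum, ← Finset.sum_attach]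
    refine sum_congr rfl fun v _ => ?_
    rw [map_monomial]
    congr 1
  have hi0 : Function.Injective i0 := Subalgebra.inclusion_injective hle
  have hG0s : ∀ v ∈ G0.support, ∀ x, u x ≠ 0 → v x ≠ 0 := by
    intro v hv
    apply hG v
    rw [← hG0, mem_support_iff, coeff_map]
    intro h
    rw [mem_support_iff] at hv
    exact hv (hi0 (by rw [h, map_zero]))
  have hu : u.support.Nonempty := by
    rw [Finsupp.support_nonempty_iff]
    intro h
    rw [h] at huw
    simp at huw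
    omega
  have hfA0 : Algebra.FiniteType ℤ A0 := (Subalgebra.fg_iff_finiteType _).mp hA0
  obtain ⟨N₁, hN₁⟩ := exists_prime_not_mem (R := A0) (∏ x, b0 x)
    (Finset.prod_ne_zero_iff.2 fun x _ => hb0 x)
  have htA : t ∈ A := hT ▸ T.2
  have hTt : (⟨t, htA⟩ : A) = T := Subtype.ext hT.symm
  obtain ⟨N₂, hN₂⟩ := lift_point k₀ t ht A A0 hA hA0 hle (fun x hx => hk hx) htA c₀ hc₀
    {p | p ≡ 1 [MOD lcmU u * m]}
    (fun p => (Pool.Agent.Q267.OD.hw p (wexp W m) (map Polynomial.C G0 + ff d b0 u)).det) N₁ (by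
      intro p hpS hp hpp
      obtain ⟨P, hP, hpP, hbP⟩ := hN₁ p hp hpp
      refine ⟨P, hP, hpP, ?_⟩
      have hdom : IsDomain (A0 ⧸ P) := Ideal.Quotient.isDomain P
      have hpf : Fact p.Prime := ⟨hpp⟩
      let L := FractionRing (A0 ⧸ P)
      let ψ : A0 →+* L := (algebraMap (A0 ⧸ P) L).comp (Ideal.Quotient.mk P)
      have hψ : ∀ x, x ∉ P → ψ x ≠ 0 := by
        intro x hx h
        apply hx
        rw [← Ideal.Quotient.eq_zero_iff_mem]
        exact IsFractionRing.injective (A0 ⧸ P) L (by rw [map_zero]; exact h)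
      have hK0 : ((p : ℕ) : L) = 0 := by
        have h1 : (Ideal.Quotient.mk P) (p : A0) = 0 := Ideal.Quotient.eq_zero_iff_mem.2 hpP
        have h2 : ψ (p : A0) = 0 := by
          change algebraMap (A0 ⧸ P) L (Ideal.Quotient.mk P (p : A0)) = 0
          rw [h1, map_zero]
        rwa [map_natCast] at h2
      have hchar : CharP L p := by
        obtain ⟨q, hq⟩ := CharP.exists L
        have h1 : q ∣ p := (CharP.cast_eq_zero_iff L q p).1 hK0
        rcases (Nat.dvd_prime hpp).1 h1 with h2 | h2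
        · subst h2
          exact absurd (CharP.char_ne_one L 1 rfl) (by simp)
        · rwa [← h2]
      obtain ⟨q, hq⟩ := (Nat.modEq_iff_dvd' hpp.one_le).1 (Nat.ModEq.symm hpS)
      have hpq : p = lcmU u * m * q + 1 := by
        have := hpp.one_le
        omega
      have h1 := det_ne_zero (k := L) p (lcmU u) m q (lcmU_pos _) hm hpq u hu
        (fun x hx => dvd_lcmU u x hx) d W hW (by rw [weight_eq]; exact huw)
        (fun x => ψ (b0 x)) (fun x => hψ _ fun h => hbP (P.mem_of_dvd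
          (Finset.dvd_prod_of_mem b0 (Finset.mem_univ x)) h)) (map ψ G0)
        (fun v hv => hG0s v (support_map_subset _ _ hv)) (wexp W m) (wexp_inj W m)
        (fun i x => wexp_lt W d m hm hV hW i x) (fun i => by rw [weight_eq]; exact i.2.2)
      intro h2
      apply h1
      have h3 : map Polynomial.C (map ψ G0) + ff d (fun x => ψ (b0 x)) u =
          map (Polynomial.mapRingHom ψ) (map Polynomial.C G0 + ff d b0 u) := by
        rw [map_add, ff_map, MvPolynomial.map_map, MvPolynomial.map_map]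
        have h5 : (Polynomial.C : L →+* Polynomial L).comp ψ =
            (Polynomial.mapRingHom ψ).comp Polynomial.C := by
          refine RingHom.ext fun a => ?_
          change Polynomial.C (ψ a) = (Polynomial.C a).map ψ
          rw [Polynomial.map_C]
        rw [h5]
      rw [h3, Pool.Agent.Q267.OD.det_hw_map, Polynomial.coe_mapRingHom]
      have h4 : ∀ f : Polynomial A0, f.map ψ =
          (f.map (Ideal.Quotient.mk P)).map (algebraMap (A0 ⧸ P) L) := fun f =>
        (Polynomial.map_map _ _ _).symm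
      rw [h4, h2, Polynomial.map_zero])
  refine ⟨N₂, fun p hp hpp hpS => ?_⟩
  obtain ⟨M, hM, hpM, hcM, hdM⟩ := hN₂ p hpS hp hpp
  refine ⟨M, hM, hpM, hcM, ?_⟩
  rw [hasseWitt_eq, Pool.Agent.Q267.OD.det_hw_map]
  intro h
  apply hdM
  rw [hTt]
  change Polynomial.eval₂RingHom i0 T _ ∈ M
  rw [← Pool.Agent.Q267.OD.det_hw_map, ff_eval, hG0]
  simp only [hib]
  exact Ideal.Quotient.eq_zero_iff_mem.1 h

end Pool.Agent.Q267.FC
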