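import Pool.Agent.Q267.OD.Hom
import Pool.Agent.Q267.DC.LeadW

/-!
# The degree in one coefficient

`F = ∑ b_x z_x ^ (d_x) + T z ^ u + G`, every monomial of `G` is divisible by the variables of `z ^ u`.
The function `Ψ(w) = min_{u_x ≠ 0} (N / u_x) w_x` bounds the degree in `T`.
-/

set_option autoImplicit false

open Finset MvPolynomial

namespace Pool.Agent.Q267.FC

open Pool.Agent.Q267.OD (hw)

variable {V : Type*}

section psi

variable (N : ℕ) (u : V →₀ ℕ) (hu : u.support.Nonempty)

/-- `N` times the largest `c` with `c u ≤ w`. -/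
def Psi (w : V →₀ ℕ) : ℕ := u.support.inf' hu fun x => N / u x * w x

lemma psi_le (w : V →₀ ℕ) (x : V) (hx : u x ≠ 0) : Psi N u hu w ≤ N / u x * w x :=
  Finset.inf'_le (fun x => N / u x * w x) (Finsupp.mem_support_iff.mpr hx)

lemma psi_add (a b : V →₀ ℕ) : Psi N u hu a + Psi N u hu b ≤ Psi N u hu (a + b) := by
  refine Finset.le_inf' hu _ fun x hx => ?_
  rw [Finsupp.add_apply, mul_add]
  exact Nat.add_le_add (psi_le N u hu a x (Finsupp.mem_support_iff.mp hx))
    (psi_le N u hu b x (Finsupp.mem_support_iff.mp hx))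

lemma psi_attained (w : V →₀ ℕ) : ∃ x, u x ≠ 0 ∧ Psi N u hu w = N / u x * w x := by
  obtain ⟨x, hx, h⟩ := Finset.exists_mem_eq_inf' hu fun x => N / u x * w x
  exact ⟨x, Finsupp.mem_support_iff.mp hx, h⟩

lemma psi_smul (p : ℕ) (w : V →₀ ℕ) : Psi N u hu (p • w) = p * Psi N u hu w := by
  refine le_antisymm ?_ ?_
  · obtain ⟨x, hx, h⟩ := psi_attained N u hu w
    refine (psi_le N u hu (p • w) x hx).trans (le_of_eq ?_)
    rw [h, Finsupp.smul_apply, smul_eq_mul]
    ring
  · refine Finset.le_inf' hu _ fun x hx => ?_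
    rw [Finsupp.smul_apply, smul_eq_mul]
    calc p * Psi N u hu w ≤ p * (N / u x * w x) :=
          Nat.mul_le_mul_left _ (psi_le N u hu w x (Finsupp.mem_support_iff.mp hx))
      _ = N / u x * (p * w x) := by ring

lemma psi_self (hN : ∀ x, u x ≠ 0 → u x ∣ N) : Psi N u hu u = N := by
  obtain ⟨x, hx, h⟩ := psi_attained N u hu u
  rw [h]
  exact Nat.div_mul_cancel (hN x hx)

lemma psi_pos (hN0 : 0 < N) (hN : ∀ x, u x ≠ 0 → u x ∣ N) (w : V →₀ ℕ)
    (hw : ∀ x, u x ≠ 0 → w x ≠ 0) : 0 < Psi N u hu w := by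
  obtain ⟨x, hx, h⟩ := psi_attained N u hu w
  rw [h]
  refine Nat.mul_pos (Nat.div_pos (Nat.le_of_dvd hN0 (hN x hx)) (Nat.pos_of_ne_zero hx)) ?_
  exact Nat.pos_of_ne_zero (hw x hx)

end psi

section rel

variable {R : Type*} [CommRing R] (N : ℕ) (u : V →₀ ℕ) (hu : u.support.Nonempty)

/-- The degree in `T` is bounded by `Ψ / N`. -/
def PB (f : MvPolynomial V (Polynomial R)) : Prop :=
  ∀ v j, (coeff v f).coeff j ≠ 0 → N * j ≤ Psi N u hu v

/-- The same terms of maximal degree. -/
def Sim (f g : MvPolynomial V (Polynomial R)) : Prop :=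
  ∀ v j, N * j = Psi N u hu v → (coeff v f).coeff j = (coeff v g).coeff j

variable {N u hu}

lemma PB.mul {f g : MvPolynomial V (Polynomial R)} (hf : PB N u hu f) (hg : PB N u hu g) :
    PB N u hu (f * g) := by
  classical
  intro v j h
  rw [Pool.Agent.Q267.DC.coeff_coeff_mul] at h
  obtain ⟨x, hx, h1⟩ := exists_ne_zero_of_sum_ne_zero h
  obtain ⟨y, hy, h2⟩ := exists_ne_zero_of_sum_ne_zero h1
  rw [HasAntidiagonal.mem_antidiagonal] at hx hy
  have h3 := hf _ _ (left_ne_zero_of_mul h2)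
  have h4 := hg _ _ (right_ne_zero_of_mul h2)
  have h5 := psi_add N u hu x.1 x.2
  rw [hx] at h5
  rw [← hy, mul_add]
  omega

lemma Sim.mul {f f' g g' : MvPolynomial V (Polynomial R)} (hf : PB N u hu f)
    (hf' : PB N u hu f') (hg : PB N u hu g) (hg' : PB N u hu g') (h : Sim N u hu f f')
    (h' : Sim N u hu g g') : Sim N u hu (f * g) (f' * g') := by
  classical
  intro v j hj
  rw [Pool.Agent.Q267.DC.coeff_coeff_mul, Pool.Agent.Q267.DC.coeff_coeff_mul]
  refine sum_congr rfl fun x hx => sum_congr rfl fun y hy => ?_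
  rw [HasAntidiagonal.mem_antidiagonal] at hx hy
  have h5 := psi_add N u hu x.1 x.2
  rw [hx, ← hj, ← hy, mul_add] at h5
  rcases Nat.lt_trichotomy (N * y.1) (Psi N u hu x.1) with h6 | h6 | h6
  · have h7 : Psi N u hu x.2 < N * y.2 := by omega
    have h8 : (coeff x.2 g).coeff y.2 = 0 := by
      by_contra h8
      exact absurd (hg _ _ h8) (by omega)
    have h9 : (coeff x.2 g').coeff y.2 = 0 := by
      by_contra h9
      exact absurd (hg' _ _ h9) (by omega)
    rw [h8, h9, mul_zero, mul_zero]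
  · rcases Nat.lt_or_ge (Psi N u hu x.2) (N * y.2) with h7 | h7
    · have h8 : (coeff x.2 g).coeff y.2 = 0 := by
        by_contra h8
        exact absurd (hg _ _ h8) (by omega)
      have h9 : (coeff x.2 g').coeff y.2 = 0 := by
        by_contra h9
        exact absurd (hg' _ _ h9) (by omega)
      rw [h8, h9, mul_zero, mul_zero]
    · rw [h _ _ h6, h' _ _ (by omega)]
  · have h8 : (coeff x.1 f).coeff y.1 = 0 := by
      by_contra h8
      exact absurd (hf _ _ h8) (by omega)
    have h9 : (coeff x.1 f').coeff y.1 = 0 := by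
      by_contra h9
      exact absurd (hf' _ _ h9) (by omega)
    rw [h8, h9, zero_mul, zero_mul]

lemma PB.one : PB N u hu (1 : MvPolynomial V (Polynomial R)) := by
  classical
  intro v j h
  rw [coeff_one] at h
  by_cases hv : 0 = v
  · rw [if_pos hv] at h
    have hj : j = 0 := by
      by_contra hj
      exact h (by rw [Polynomial.coeff_one, if_neg hj])
    rw [hj, mul_zero]
    exact Nat.zero_le _
  · rw [if_neg hv, Polynomial.coeff_zero] at h
    exact absurd rfl h

lemma PB.pow {f : MvPolynomial V (Polynomial R)} (hf : PB N u hu f) (k : ℕ) :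
    PB N u hu (f ^ k) := by
  induction k with
  | zero => rw [pow_zero]; exact PB.one
  | succ k ih => rw [_root_.pow_succ]; exact ih.mul hf

lemma Sim.pow {f f' : MvPolynomial V (Polynomial R)} (hf : PB N u hu f)
    (hf' : PB N u hu f') (h : Sim N u hu f f') (k : ℕ) : Sim N u hu (f ^ k) (f' ^ k) := by
  induction k with
  | zero => rw [pow_zero, pow_zero]; exact fun _ _ _ => rfl
  | succ k ih => rw [_root_.pow_succ, _root_.pow_succ]; exact ih.mul (hf.pow k) (hf'.pow k) hf hf' h

end rel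

end Pool.Agent.Q267.FC
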