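import Pool.Agent.Q267.FC.Psi
import Pool.Agent.Q267.OD.Diag

/-!
# The top coefficient of the Hasse-Witt determinant in one coefficient
-/

set_option autoImplicit false

open Finset MvPolynomial

namespace Pool.Agent.Q267.FC

open Pool.Agent.Q267.OD (hw expo expo_apply prod_monomial)

variable {V : Type*} [Fintype V] [DecidableEq V]

section expand

variable {k : Type*} [CommRing k]

/-- The polynomial `∑ b_x z_x ^ (d_x) + T z ^ u`. -/
noncomputable def ff (d : V → ℕ) (b : V → k) (u : V →₀ ℕ) : MvPolynomial V (Polynomial k) :=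
  ∑ x, monomial (Finsupp.single x (d x)) (Polynomial.C (b x)) + monomial u Polynomial.X

lemma ff_pow (d : V → ℕ) (b : V → k) (u : V →₀ ℕ) (n : ℕ) :
    ff d b u ^ n = ∑ κ ∈ piAntidiag (univ : Finset (Option V)) n,
      monomial (κ none • u + expo d κ) ((Nat.multinomial univ κ : Polynomial k) *
        (Polynomial.X ^ κ none * ∏ l, Polynomial.C (b l) ^ κ (some l))) := by
  have h1 : ff d b u = ∑ x : Option V, (Option.elim x (monomial u Polynomial.X)
        fun i => monomial (Finsupp.single i (d i)) (Polynomial.C (b i)) :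
          MvPolynomial V (Polynomial k)) := by
    rw [Fintype.sum_option, add_comm]
    rfl
  rw [h1, sum_pow_eq_sum_piAntidiag]
  refine sum_congr rfl fun κ _ => ?_
  rw [Fintype.prod_option]
  simp only [Option.elim]
  simp only [monomial_pow]
  have h3 : ∏ x, (monomial (κ (some x) • Finsupp.single x (d x))
      (Polynomial.C (b x) ^ κ (some x)) : MvPolynomial V (Polynomial k)) =
      monomial (expo d κ) (∏ x, Polynomial.C (b x) ^ κ (some x)) := by
    unfold expo
    rw [prod_monomial]
  rw [h3, monomial_mul]
  have h2 : ((Nat.multinomial univ κ : ℕ) : MvPolynomial V (Polynomial k)) =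
      C ((Nat.multinomial univ κ : ℕ) : Polynomial k) := by
    rw [map_natCast]
  rw [h2, C_mul_monomial]

lemma ff_coeff (d : V → ℕ) (b : V → k) (u : V →₀ ℕ) (n : ℕ) (v : V →₀ ℕ) (j : ℕ) :
    (coeff v (ff d b u ^ n)).coeff j = ∑ κ ∈ piAntidiag (univ : Finset (Option V)) n,
      if κ none • u + expo d κ = v ∧ κ none = j then
        ((Nat.multinomial univ κ : ℕ) : k) * ∏ l, b l ^ κ (some l) else 0 := by
  rw [ff_pow, coeff_sum, Polynomial.finsetSum_coeff]
  refine sum_congr rfl fun κ _ => ?_
  rw [coeff_monomial]
  by_cases h : κ none • u + expo d κ = v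
  · rw [if_pos h]
    have h2 : ((Nat.multinomial univ κ : Polynomial k) *
        (Polynomial.X ^ κ none * ∏ l, Polynomial.C (b l) ^ κ (some l))) =
        Polynomial.C (((Nat.multinomial univ κ : ℕ) : k) * ∏ l, b l ^ κ (some l)) *
          Polynomial.X ^ κ none := by
      rw [map_mul, map_natCast, map_prod]
      simp only [map_pow]
      ring
    rw [h2, Polynomial.coeff_C_mul_X_pow]
    by_cases h3 : κ none = j
    · rw [if_pos h3.symm, if_pos ⟨h, h3⟩]
    · rw [if_neg (Ne.symm h3), if_neg fun h4 => h3 h4.2]
  · rw [if_neg h, if_neg fun h4 => h h4.1, Polynomial.coeff_zero]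

end expand

section top

variable {k : Type*} [Field k] {I : Type*} [Fintype I] [DecidableEq I]

lemma sim_main (N : ℕ) (u : V →₀ ℕ) (hu : u.support.Nonempty) (hN0 : 0 < N)
    (hN : ∀ x, u x ≠ 0 → u x ∣ N) (d : V → ℕ) (b : V → k) (G : MvPolynomial V k)
    (hG : ∀ v ∈ G.support, ∀ x, u x ≠ 0 → v x ≠ 0) :
    PB N u hu (map Polynomial.C G + ff d b u) ∧ PB N u hu (ff d b u) ∧
      Sim N u hu (map Polynomial.C G + ff d b u) (ff d b u) := by
  have h1 : PB N u hu (map Polynomial.C G) := by
    intro v j h
    rw [coeff_map, Polynomial.coeff_C] at h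
    have : j = 0 := by
      by_contra h2
      exact h (if_neg h2)
    rw [this, mul_zero]
    exact Nat.zero_le _
  have h2 : PB N u hu (ff d b u) := by
    intro v j h
    have h3 := ff_coeff d b u 1 v j
    rw [pow_one] at h3
    rw [h3] at h
    obtain ⟨κ, hκ, h4⟩ := exists_ne_zero_of_sum_ne_zero h
    have h5 : κ none • u + expo d κ = v ∧ κ none = j := by
      by_contra h5
      exact h4 (if_neg h5)
    have h6 := psi_add N u hu (κ none • u) (expo d κ)
    rw [h5.1, psi_smul, psi_self N u hu hN, h5.2] at h6
    rw [mul_comm]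
    omega
  refine ⟨?_, h2, ?_⟩
  · intro v j h
    rw [coeff_add, Polynomial.coeff_add] at h
    by_cases h3 : (coeff v (map Polynomial.C G)).coeff j = 0
    · rw [h3, zero_add] at h
      exact h2 v j h
    · exact h1 v j h3
  · intro v j hj
    rw [coeff_add, Polynomial.coeff_add]
    have h3 : (coeff v (map Polynomial.C G)).coeff j = 0 := by
      rw [coeff_map, Polynomial.coeff_C]
      by_cases h4 : j = 0
      · rw [if_pos h4]
        by_contra h5
        have h6 := psi_pos N u hu hN0 hN v (hG v (mem_support_iff.mpr h5))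
        rw [h4, mul_zero] at hj
        omega
      · rw [if_neg h4]
    rw [h3, zero_add]

/-- **The determinant is not zero.** -/
theorem det_ne_zero (p : ℕ) [Fact p.Prime] [CharP k p] (N m q : ℕ) (hN0 : 0 < N) (hm : 0 < m)
    (hpq : p = N * m * q + 1) (u : V →₀ ℕ) (hu : u.support.Nonempty)
    (hN : ∀ x, u x ≠ 0 → u x ∣ N) (d W : V → ℕ) (hW : ∀ x, W x * d x = m)
    (huw : Finsupp.weight W u = m) (b : V → k) (hb : ∀ x, b x ≠ 0) (G : MvPolynomial V k)
    (hG : ∀ v ∈ G.support, ∀ x, u x ≠ 0 → v x ≠ 0) (w : I → V →₀ ℕ)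
    (hw : Function.Injective w) (hw0 : ∀ i x, w i x < d x)
    (hww : ∀ i, Finsupp.weight W (w i) = m) :
    (Pool.Agent.Q267.OD.hw p w (map Polynomial.C G + ff d b u)).det ≠ 0 := by
  classical
  have hp := (Fact.out : p.Prime)
  have hWpos : ∀ x, 0 < W x := fun x => Nat.pos_of_ne_zero fun h => by
    have := hW x
    rw [h, zero_mul] at this
    omega
  obtain ⟨hPB, hPB', hSim⟩ := sim_main N u hu hN0 hN d b G hG
  set F := map Polynomial.C G + ff d b u with hF
  have hPBp := hPB.pow (p - 1)
  have hSimp := hSim.pow hPB hPB' (p - 1)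
  obtain ⟨P, hP⟩ : ∃ P : I → ℕ, P = fun i => Psi N u hu (w i) := ⟨_, rfl⟩
  have hPi : ∀ i, Psi N u hu (w i) = P i := fun i => by rw [hP]
  have hPu : ∀ i x, P i * u x ≤ N * w i x := by
    intro i x
    by_cases hx : u x = 0
    · rw [hx, mul_zero]; exact Nat.zero_le _
    · rw [← hPi]
      calc Psi N u hu (w i) * u x ≤ (N / u x * w i x) * u x :=
            Nat.mul_le_mul_right _ (psi_le N u hu (w i) x hx)
        _ = (N / u x * u x) * w i x := by ring
        _ = N * w i x := by rw [Nat.div_mul_cancel (hN x hx)]
  have hWsum : ∀ v : V →₀ ℕ, Finsupp.weight W v = ∑ x, v x * W x := by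
    intro v
    rw [Finsupp.weight_apply, Finsupp.sum_fintype _ _ (by simp)]
    rfl
  -- entries
  have hentry : ∀ i j n, (Pool.Agent.Q267.OD.hw p w F i j).coeff n ≠ 0 →
      N * n + P j ≤ p * P i ∧ (N * n + P j = p * P i → i = j) := by
    intro i j n h
    unfold Pool.Agent.Q267.OD.hw at h
    rw [Matrix.of_apply, coeff_monomial_mul'] at h
    by_cases hle : w j ≤ p • w i
    swap
    · rw [if_neg hle] at h
      exact absurd rfl h
    rw [if_pos hle, one_mul] at h
    set v := p • w i - w j with hv
    have hvw : v + w j = p • w i := tsub_add_cancel_of_le hle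
    have h1 := hPBp v n h
    have h2 := psi_add N u hu v (w j)
    rw [hvw, psi_smul, hPi, hPi] at h2
    refine ⟨by omega, fun heq => ?_⟩
    have h3 : N * n = Psi N u hu v := by omega
    rw [hSimp v n h3, ff_coeff] at h
    obtain ⟨κ, _, h4⟩ := exists_ne_zero_of_sum_ne_zero h
    obtain ⟨h5, h6⟩ : κ none • u + expo d κ = v ∧ κ none = n := by
      by_contra h5
      exact h4 (if_neg h5)
    have h7 : ∀ x, n * u x + κ (some x) * d x + w j x = p * w i x := by
      intro x
      have h8 := DFunLike.congr_fun hvw x
      rw [← h5, Finsupp.add_apply, Finsupp.add_apply, expo_apply, Finsupp.smul_apply,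
        Finsupp.smul_apply, smul_eq_mul, smul_eq_mul, h6] at h8
      exact h8
    -- the barycentric coordinates
    have h8 : ∀ x, (N : ℤ) * w i x - P i * u x = N * w j x - P j * u x := by
      intro x
      have h9 := h7 x
      have h10 := hW x
      zify at h9 heq hpq h10
      have h11 : (N : ℤ) * m * κ (some x) = W x * ((p : ℤ) * (N * w i x - P i * u x) -
          (N * w j x - P j * u x)) := by
        have e1 : (N : ℤ) * n = p * P i - P j := by linarith
        calc (N : ℤ) * m * κ (some x) = N * (W x * d x) * κ (some x) := by rw [h10]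
          _ = W x * (N * (κ (some x) * d x)) := by ring
          _ = W x * (N * (p * w i x - w j x - n * u x)) := by rw [← h9]; ring
          _ = W x * (N * (p * w i x - w j x) - (N * n) * u x) := by ring
          _ = _ := by rw [e1]; ring
      have h12 : (N : ℤ) * m ∣ W x * ((N * w i x - P i * u x) - (N * w j x - P j * u x)) := by
        refine ⟨κ (some x) - W x * q * (N * w i x - P i * u x), ?_⟩
        calc (W x : ℤ) * ((N * w i x - P i * u x) - (N * w j x - P j * u x))
            = W x * ((p : ℤ) * (N * w i x - P i * u x) - (N * w j x - P j * u x)) -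
              N * m * (W x * q * (N * w i x - P i * u x)) := by rw [hpq]; ring
          _ = N * m * κ (some x) - N * m * (W x * q * (N * w i x - P i * u x)) := by rw [h11]
          _ = _ := by ring
      have ha := hPu i x
      have hb' := hPu j x
      have hc := hw0 i x
      have hd := hw0 j x
      have hWp := hWpos x
      zify at ha hb' hc hd hWp
      have hN0' : (0 : ℤ) < N := by exact_mod_cast hN0
      have h13 : (W x : ℤ) * ((N * w i x - P i * u x) - (N * w j x - P j * u x)) = 0 := by
        refine Int.eq_zero_of_abs_lt_dvd h12 ?_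
        rw [abs_mul, abs_of_pos hWp, ← h10]
        have h14 : |((N : ℤ) * w i x - P i * u x) - (N * w j x - P j * u x)| < N * d x := by
          rw [abs_lt]
          have h15 : (N : ℤ) * w i x < N * d x := mul_lt_mul_of_pos_left hc hN0'
          have h16 : (N : ℤ) * w j x < N * d x := mul_lt_mul_of_pos_left hd hN0'
          have h17 : (0 : ℤ) ≤ P i * u x := by positivity
          have h18 : (0 : ℤ) ≤ P j * u x := by positivity
          constructor <;> linarith
        calc (W x : ℤ) * |((N : ℤ) * w i x - P i * u x) - (N * w j x - P j * u x)|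
            < W x * (N * d x) := mul_lt_mul_of_pos_left h14 hWp
          _ = N * (W x * d x) := by ring
      rcases mul_eq_zero.mp h13 with h14 | h14
      · exact absurd h14 hWp.ne'
      · linarith
    have h9 : (P i : ℤ) = P j := by
      have h10 : ∑ x, (W x : ℤ) * ((N : ℤ) * w i x - P i * u x) =
          ∑ x, (W x : ℤ) * (N * w j x - P j * u x) := sum_congr rfl fun x _ => by rw [h8 x]
      have h11 : ∀ i', ∑ x, (W x : ℤ) * ((N : ℤ) * w i' x - P i' * u x) = N * m - P i' * m := by
        intro i'
        have h12 := hww i'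
        rw [hWsum] at h12
        have h13 := huw
        rw [hWsum] at h13
        have h14 : ∑ x, (W x : ℤ) * ((N : ℤ) * w i' x - P i' * u x) =
            N * ∑ x, ((w i' x * W x : ℕ) : ℤ) - P i' * ∑ x, ((u x * W x : ℕ) : ℤ) := by
          rw [mul_sum, mul_sum, ← sum_sub_distrib]
          refine sum_congr rfl fun x _ => ?_
          push_cast
          ring
        rw [h14, ← Nat.cast_sum, ← Nat.cast_sum, h12, h13]
      rw [h11, h11] at h10
      have hm' : (0 : ℤ) < m := by exact_mod_cast hm
      have h12 : (P i : ℤ) * m = P j * m := by linarith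
      exact mul_right_cancel₀ hm'.ne' h12
    apply hw
    ext x
    have h10 := h8 x
    rw [h9] at h10
    have h11 : (N : ℤ) * w i x = N * w j x := by linarith
    have hN0' : (N : ℤ) ≠ 0 := by exact_mod_cast hN0.ne'
    exact_mod_cast mul_left_cancel₀ hN0' h11
  -- the diagonal entries
  have hdiag : ∀ i, (Pool.Agent.Q267.OD.hw p w F i i).coeff (m * q * P i) ≠ 0 := by
    intro i
    have hle : w i ≤ p • w i := by
      rw [hpq, add_smul, one_smul]
      exact le_add_self
    unfold Pool.Agent.Q267.OD.hw
    rw [Matrix.of_apply, coeff_monomial_mul', if_pos hle, one_mul]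
    have hv : p • w i - w i = (p - 1) • w i := by
      rw [hpq, Nat.add_sub_cancel, add_smul, one_smul, add_tsub_cancel_right]
    rw [hv]
    have h1 : N * (m * q * P i) = Psi N u hu ((p - 1) • w i) := by
      rw [psi_smul, hPi, hpq, Nat.add_sub_cancel]
      ring
    rw [hSimp _ _ h1, ff_coeff]
    obtain ⟨κ₀, hκ₀⟩ : ∃ κ₀ : Option V → ℕ, κ₀ = fun o => Option.elim o (m * q * P i)
      fun x => W x * q * (N * w i x - P i * u x) := ⟨_, rfl⟩
    have hn : κ₀ none = m * q * P i := by rw [hκ₀]; rfl
    have hs : ∀ x, κ₀ (some x) = W x * q * (N * w i x - P i * u x) := fun x => by rw [hκ₀]; rfl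
    have hmem : κ₀ ∈ piAntidiag (univ : Finset (Option V)) (p - 1) := by
      rw [mem_piAntidiag]
      refine ⟨?_, fun _ _ => mem_univ _⟩
      rw [Fintype.sum_option, hn, hpq, Nat.add_sub_cancel]
      simp only [hs]
      have h2 := hww i
      rw [hWsum] at h2
      have h3 := huw
      rw [hWsum] at h3
      zify
      have h4 : ∑ x, ((W x : ℤ) * q * ((N * w i x - P i * u x : ℕ) : ℤ)) =
          q * (N * ∑ x, ((w i x * W x : ℕ) : ℤ) - P i * ∑ x, ((u x * W x : ℕ) : ℤ)) := by
        rw [mul_sum, mul_sum, ← sum_sub_distrib, mul_sum]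
        refine sum_congr rfl fun x _ => ?_
        rw [Nat.cast_sub (hPu i x)]
        push_cast
        ring
      rw [h4, ← Nat.cast_sum, ← Nat.cast_sum, h2, h3]
      ring
    have hcond : κ₀ none • u + expo d κ₀ = (p - 1) • w i ∧ κ₀ none = m * q * P i := by
      refine ⟨?_, hn⟩
      ext x
      rw [Finsupp.add_apply, expo_apply, Finsupp.smul_apply, Finsupp.smul_apply, smul_eq_mul,
        smul_eq_mul, hn, hs, hpq, Nat.add_sub_cancel]
      have h2 := hPu i x
      have h3 := hW x
      zify
      rw [Nat.cast_sub h2]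
      zify at h3
      push_cast
      rw [← h3]
      ring
    rw [sum_eq_single κ₀, if_pos hcond]
    · refine mul_ne_zero ?_ (prod_ne_zero_iff.mpr fun x _ => pow_ne_zero _ (hb x))
      intro h
      rw [CharP.cast_eq_zero_iff k p] at h
      have h2 := Nat.multinomial_spec univ κ₀
      rw [(mem_piAntidiag.mp hmem).1] at h2
      have h3 : p ∣ (p - 1).factorial := by
        rw [← h2]
        exact dvd_mul_of_dvd_right h _
      rw [hp.dvd_factorial] at h3
      have := hp.two_le
      omega
    · intro κ _ hne
      refine if_neg fun h => hne ?_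
      funext o
      rcases o with _ | x
      · rw [h.2, hn]
      · have h2 := DFunLike.congr_fun (h.1.trans hcond.1.symm) x
        rw [Finsupp.add_apply, Finsupp.add_apply, expo_apply, expo_apply, h.2, hn] at h2
        have h3 := Nat.add_left_cancel h2
        refine Nat.eq_of_mul_eq_mul_right ?_ h3
        refine Nat.pos_of_ne_zero fun h4 => ?_
        have := hW x
        rw [h4, mul_zero] at this
        omega
    · intro h
      exact absurd hmem h
  -- the determinant
  intro hdet
  have hcoef : (Pool.Agent.Q267.OD.hw p w F).det.coeff (∑ i, m * q * P i) = 0 := by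
    rw [hdet, Polynomial.coeff_zero]
  rw [Matrix.det_apply, Polynomial.finsetSum_coeff, sum_eq_single (1 : Equiv.Perm I)] at hcoef
  · rw [Equiv.Perm.sign_one, one_smul] at hcoef
    simp only [Equiv.Perm.coe_one, id_eq] at hcoef
    rw [Pool.Agent.Q267.DC.coeff_prod_top] at hcoef
    · exact prod_ne_zero_iff.mpr (fun i _ => hdiag i) hcoef
    · intro i _
      rw [Polynomial.natDegree_le_iff_coeff_eq_zero]
      intro n hn
      by_contra h
      have h1 := (hentry i i n h).1
      have h2 : N * (m * q * P i) < N * n := Nat.mul_lt_mul_of_pos_left hn hN0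
      have h3 : p * P i = N * (m * q * P i) + P i := by
        rw [hpq]
        ring
      omega
  · intro σ _ hσ
    rw [Polynomial.coeff_smul]
    have h0 : (∏ i, Pool.Agent.Q267.OD.hw p w F (σ i) i).coeff (∑ i, m * q * P i) = 0 := by
      by_contra hne
      have hne' : ∀ i, Pool.Agent.Q267.OD.hw p w F (σ i) i ≠ 0 := by
        intro i hi
        apply hne
        rw [prod_eq_zero (f := fun i => Pool.Agent.Q267.OD.hw p w F (σ i) i) (mem_univ i) hi,
          Polynomial.coeff_zero]
      have h1 : ∑ i, m * q * P i ≤ ∑ i, (Pool.Agent.Q267.OD.hw p w F (σ i) i).natDegree :=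
        (Polynomial.le_natDegree_of_ne_zero hne).trans (Polynomial.natDegree_prod_le _ _)
      have h2 : ∀ i, (Pool.Agent.Q267.OD.hw p w F (σ i) i).coeff
          (Pool.Agent.Q267.OD.hw p w F (σ i) i).natDegree ≠ 0 := fun i => by
        rw [Polynomial.coeff_natDegree]
        exact Polynomial.leadingCoeff_ne_zero.mpr (hne' i)
      have h3 : ∑ i, (N * (Pool.Agent.Q267.OD.hw p w F (σ i) i).natDegree + P i) ≤
          ∑ i, p * P (σ i) := sum_le_sum fun i _ => (hentry (σ i) i _ (h2 i)).1
      have h4 : ∑ i, p * P (σ i) = ∑ i, (N * (m * q * P i) + P i) := by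
        rw [Equiv.sum_comp σ fun i => p * P i]
        refine sum_congr rfl fun i _ => ?_
        rw [hpq]
        ring
      have h5 : ∑ i, (N * (Pool.Agent.Q267.OD.hw p w F (σ i) i).natDegree + P i) =
          ∑ i, p * P (σ i) := by
        refine le_antisymm h3 ?_
        have e1 : ∑ i, (N * (m * q * P i) + P i) = N * ∑ i, m * q * P i + ∑ i, P i := by
          rw [sum_add_distrib, mul_sum]
        have e2 : ∑ i, (N * (Pool.Agent.Q267.OD.hw p w F (σ i) i).natDegree + P i) =
            N * ∑ i, (Pool.Agent.Q267.OD.hw p w F (σ i) i).natDegree + ∑ i, P i := by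
          rw [sum_add_distrib, mul_sum]
        rw [h4, e1, e2]
        exact Nat.add_le_add_right (Nat.mul_le_mul_left _ h1) _
      have h6 := (Finset.sum_eq_sum_iff_of_le fun i _ => (hentry (σ i) i _ (h2 i)).1).mp h5
      apply hσ
      ext i
      exact (hentry (σ i) i _ (h2 i)).2 (h6 i (mem_univ i))
    rw [h0, smul_zero]
  · intro h
    exact absurd (mem_univ _) h

end top

end Pool.Agent.Q267.FC
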